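import Mathlib

set_option autoImplicit false

open Finset

namespace Pool.Agent.P.MP_657a03_nt.LB

theorem match_card {α γ β : Type*} [DecidableEq β] (A : Finset α) (B : Finset γ) (D : Finset β)
    (f : α → β) (g : γ → β) (hf : ∀ a ∈ A, f a ∈ D) :
    ((A ×ˢ B).filter (fun z => f z.1 = g z.2)).card =
      ∑ d ∈ D, (A.filter (fun a => f a = d)).card * (B.filter (fun b => g b = d)).card := by
  classical
  rw [Finset.card_eq_sum_card_fiberwise (f := fun z : α × γ => f z.1) (t := D)]
  · refine Finset.sum_congr rfl fun d _ => ?_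
    rw [← Finset.card_product]
    congr 1
    ext z
    simp only [Finset.mem_filter, Finset.mem_product]
    constructor
    · rintro ⟨⟨⟨h1, h2⟩, h3⟩, h4⟩
      exact ⟨⟨h1, h4⟩, h2, h3 ▸ h4⟩
    · rintro ⟨⟨h1, h4⟩, h2, h3⟩
      exact ⟨⟨⟨h1, h2⟩, h4.trans h3.symm⟩, h4⟩
  · intro z hz
    simp only [Finset.coe_filter, Finset.mem_product, Set.mem_ofPred_eq] at hz
    exact hf _ hz.1.1

theorem coll_ge {α β : Type*} [DecidableEq β] (E : Finset α) (D : Finset β) (f : α → β)
    (hf : ∀ e ∈ E, f e ∈ D) :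
    E.card ^ 2 ≤ D.card * ((E ×ˢ E).filter (fun z => f z.1 = f z.2)).card := by
  classical
  rw [match_card E E D f f hf, Finset.card_eq_sum_card_fiberwise (f := f) (t := D) hf]
  have h := sq_sum_le_card_mul_sum_sq (s := D)
    (f := fun d => (E.filter (fun a => f a = d)).card)
  simpa [sq] using h

theorem cs2 {α β : Type*} [DecidableEq β] (A : Finset α) (D : Finset β) (f g : α → β)
    (hf : ∀ a ∈ A, f a ∈ D) (hg : ∀ a ∈ A, g a ∈ D) :
    2 * ((A ×ˢ A).filter (fun z => f z.1 = g z.2)).card ≤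
      ((A ×ˢ A).filter (fun z => f z.1 = f z.2)).card +
        ((A ×ˢ A).filter (fun z => g z.1 = g z.2)).card := by
  rw [match_card A A D f g hf, match_card A A D f f hf, match_card A A D g g hg,
    ← Finset.sum_add_distrib, Finset.mul_sum]
  refine Finset.sum_le_sum fun d _ => ?_
  generalize (A.filter (fun a => f a = d)).card = s
  generalize (A.filter (fun a => g a = d)).card = t
  have h : (0 : ℤ) ≤ ((s : ℤ) - t) ^ 2 := sq_nonneg _
  zify
  nlinarith

theorem cherry {α γ κ : Type*} (L : Finset α) (R : Finset γ) (C : Finset κ)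
    (E : Finset (α × γ)) (hE : E ⊆ L ×ˢ R) (P : α → γ → κ → Prop)
    (hP : ∀ e ∈ E, ∃ c ∈ C, P e.1 e.2 c) (T : ℕ)
    (hT : ∀ x1 ∈ R, ∀ x2 ∈ R, x1 ≠ x2 → ∀ S : Finset α,
      (∀ a ∈ S, a ∈ L ∧ ∃ c ∈ C, P a x1 c ∧ P a x2 c) → S.card ≤ T) :
    E.card ^ 2 ≤ L.card * C.card * (E.card + T * R.card ^ 2) := by
  classical
  rcases E.eq_empty_or_nonempty with rfl | ⟨e0, he0⟩
  · simp
  obtain ⟨c0, -, -⟩ := hP e0 he0
  have : Nonempty κ := ⟨c0⟩
  choose! col hc1 hc2 using hP
  have h1 := coll_ge E (L ×ˢ C) (fun e => (e.1, col e)) (fun e he =>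
    Finset.mem_product.2 ⟨(Finset.mem_product.1 (hE he)).1, hc1 e he⟩)
  rw [Finset.card_product] at h1
  refine h1.trans (Nat.mul_le_mul_left _ ?_)
  set Z := (E ×ˢ E).filter (fun z => (z.1.1, col z.1) = (z.2.1, col z.2)) with hZ
  rw [← Finset.card_filter_add_card_filter_not (s := Z) (fun z => z.1.2 = z.2.2)]
  refine Nat.add_le_add ?_ ?_
  · refine Finset.card_le_card_of_injOn (fun z => z.1) ?_ ?_
    · intro z hz
      simp only [hZ, Finset.coe_filter, Finset.mem_filter, Finset.mem_product,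
        Set.mem_ofPred_eq] at hz
      exact hz.1.1.1
    · intro z hz w hw hzw
      simp only [hZ, Finset.coe_filter, Finset.mem_filter, Finset.mem_product,
        Set.mem_ofPred_eq, Prod.mk.injEq] at hz hw
      have a1 : z.1 = z.2 := Prod.ext hz.1.2.1 hz.2
      have a2 : w.1 = w.2 := Prod.ext hw.1.2.1 hw.2
      have a3 : z.1 = w.1 := hzw
      exact Prod.ext a3 (a1 ▸ a2 ▸ a3)
  · rw [sq, ← Finset.card_product]
    refine Finset.card_le_mul_card_image_of_maps_to (f := fun z => (z.1.2, z.2.2)) ?_ T ?_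
    · intro z hz
      simp only [hZ, Finset.mem_filter, Finset.mem_product] at hz
      exact Finset.mem_product.2 ⟨(Finset.mem_product.1 (hE hz.1.1.1)).2,
        (Finset.mem_product.1 (hE hz.1.1.2)).2⟩
    · intro b hb
      obtain ⟨hb1, hb2⟩ := Finset.mem_product.1 hb
      by_cases hne : b.1 = b.2
      · rw [Finset.card_eq_zero.2]
        · exact Nat.zero_le _
        · rw [Finset.filter_eq_empty_iff]
          intro z hz h
          simp only [Finset.mem_filter] at hz
          apply hz.2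
          have e1 : z.1.2 = b.1 := congrArg Prod.fst h
          have e2 : z.2.2 = b.2 := congrArg Prod.snd h
          rw [e1, e2, hne]
      · set F := (Z.filter (fun z => ¬ z.1.2 = z.2.2)).filter
          (fun z => (z.1.2, z.2.2) = b) with hF
        have hmem : ∀ z ∈ F, z.1 ∈ E ∧ z.2 ∈ E ∧ z.1.1 = z.2.1 ∧ col z.1 = col z.2 ∧
            z.1.2 = b.1 ∧ z.2.2 = b.2 := by
          intro z hz
          simp only [hF, hZ, Finset.mem_filter, Finset.mem_product, Prod.mk.injEq] at hz
          exact ⟨hz.1.1.1.1, hz.1.1.1.2, hz.1.1.2.1, hz.1.1.2.2, congrArg Prod.fst hz.2,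
            congrArg Prod.snd hz.2⟩
        have hinj : Set.InjOn (fun z : (α × γ) × (α × γ) => z.1.1) F := by
          intro z hz w hw hzw
          obtain ⟨-, -, z3, -, z5, z6⟩ := hmem z hz
          obtain ⟨-, -, w3, -, w5, w6⟩ := hmem w hw
          have a3 : z.1.1 = w.1.1 := hzw
          exact Prod.ext (Prod.ext a3 (z5.trans w5.symm))
            (Prod.ext (z3 ▸ w3 ▸ a3) (z6.trans w6.symm))
        rw [← Finset.card_image_of_injOn hinj]
        refine hT b.1 hb1 b.2 hb2 hne _ ?_
        intro a ha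
        obtain ⟨z, hz, rfl⟩ := Finset.mem_image.1 ha
        obtain ⟨z1, z2, z3, z4, z5, z6⟩ := hmem z hz
        refine ⟨(Finset.mem_product.1 (hE z1)).1, col z.1, hc1 _ z1, z5 ▸ hc2 _ z1, ?_⟩
        rw [z3, z4, ← z6]
        exact hc2 _ z2

/-- integer divisors -/
def idiv (n : ℕ) : Finset ℤ :=
  n.divisors.image (fun d : ℕ => (d : ℤ)) ∪ n.divisors.image (fun d : ℕ => -(d : ℤ))

theorem idiv_card (n : ℕ) : (idiv n).card ≤ 2 * n.divisors.card := by
  unfold idiv
  refine (Finset.card_union_le _ _).trans ?_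
  have h1 := Finset.card_image_le (s := n.divisors) (f := fun d : ℕ => (d : ℤ))
  have h2 := Finset.card_image_le (s := n.divisors) (f := fun d : ℕ => -(d : ℤ))
  omega

theorem mem_idiv {h e : ℤ} (hh : h ≠ 0) (he : e ∣ h) : e ∈ idiv h.natAbs := by
  unfold idiv
  have h1 : e.natAbs ∈ h.natAbs.divisors :=
    Nat.mem_divisors.2 ⟨Int.natAbs_dvd_natAbs.2 he, Int.natAbs_ne_zero.2 hh⟩
  rcases Int.natAbs_eq e with h2 | h2
  · exact Finset.mem_union_left _ (Finset.mem_image.2 ⟨_, h1, h2.symm⟩)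
  · exact Finset.mem_union_right _ (Finset.mem_image.2 ⟨_, h1, h2.symm⟩)

theorem two_nbrs {α : Type*} (v : α → ℤ) (x1 x2 : ℤ) (hx : x1 ≠ x2) (S : Finset α)
    (hv : Set.InjOn v S)
    (hS : ∀ a ∈ S, ∃ (k : ℕ) (e z1 z2 : ℤ), (k = 2 ∨ k = 3) ∧ 0 < z1 ∧ 0 < z2 ∧
      v a - x1 = e * z1 ^ k ∧ v a - x2 = e * z2 ^ k) :
    S.card ≤ 8 * (x2 - x1).natAbs.divisors.card ^ 2 := by
  classical
  have hh : x2 - x1 ≠ 0 := sub_ne_zero.2 hx.symm
  choose! k e z1 z2 hk h1 h2 h3 h4 using hS
  set D := idiv (x2 - x1).natAbs with hD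
  have hcard : S.card ≤ (({2, 3} : Finset ℕ) ×ˢ D ×ˢ D).card := by
    refine Finset.card_le_card_of_injOn (fun a => (k a, e a, z1 a - z2 a)) ?_ ?_
    · intro a ha
      have ha' : a ∈ S := ha
      have e0 : x2 - x1 = e a * (z1 a ^ k a - z2 a ^ k a) := by
        have := h3 a ha'; have := h4 a ha'; linarith
      simp only [Finset.coe_product, Set.mem_prod, Finset.mem_coe, Finset.mem_insert,
        Finset.mem_singleton]
      refine ⟨hk a ha', mem_idiv hh ⟨_, e0⟩, mem_idiv hh ?_⟩
      rw [e0]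
      exact Dvd.dvd.mul_left (sub_dvd_pow_sub_pow _ _ _) _
    · intro a ha b hb hab
      have ha' : a ∈ S := ha
      have hb' : b ∈ S := hb
      simp only [Prod.mk.injEq] at hab
      obtain ⟨q1, q2, q3⟩ := hab
      have ea : x2 - x1 = e a * (z1 a ^ k a - z2 a ^ k a) := by
        have := h3 a ha'; have := h4 a ha'; linarith
      have eb : x2 - x1 = e b * (z1 b ^ k b - z2 b ^ k b) := by
        have := h3 b hb'; have := h4 b hb'; linarith
      have he : e a ≠ 0 := fun h => hh (by rw [ea, h, zero_mul])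
      have hw : z1 a - z2 a ≠ 0 := fun h => hh (by rw [ea, sub_eq_zero.1 h, sub_self, mul_zero])
      rw [← q1, ← q2] at eb
      have e1 : z1 a ^ k a - z2 a ^ k a = z1 b ^ k a - z2 b ^ k a :=
        mul_left_cancel₀ he (ea.symm.trans eb)
      have pa := h1 a ha'
      have pb := h2 b hb'
      obtain ⟨w, hwd⟩ : ∃ w, w = z1 a - z2 a := ⟨_, rfl⟩
      have ra : z1 a = z2 a + w := by rw [hwd]; ring
      have rb : z1 b = z2 b + w := by rw [hwd, q3]; ring
      rw [← hwd] at hw
      have key : z2 a = z2 b := by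
        rcases hk a ha' with hk2 | hk3
        · rw [hk2, ra, rb] at e1
          have : w * (z2 a - z2 b) = 0 := by linarith
          rcases mul_eq_zero.1 this with h | h
          · exact absurd h hw
          · linarith
        · rw [hk3, ra, rb] at e1
          have : w * ((z2 a - z2 b) * (z2 a + w + z2 b)) = 0 := by linarith
          rcases mul_eq_zero.1 this with h | h
          · exact absurd h hw
          · rcases mul_eq_zero.1 h with h | h
            · linarith
            · rw [ra] at pa; linarith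
      apply hv ha hb
      have := h4 a ha'
      have := h4 b hb'
      rw [← q1, ← q2, ← key] at this
      linarith
  refine hcard.trans ?_
  rw [Finset.card_product, Finset.card_product]
  have h5 := idiv_card (x2 - x1).natAbs
  have h6 : ({2, 3} : Finset ℕ).card = 2 := by decide
  rw [h6]
  have := Nat.mul_le_mul h5 h5
  nlinarith

end Pool.Agent.P.MP_657a03_nt.LB
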