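import Pool.Agent.P.MP_657a03_nt.LB.A

set_option autoImplicit false

open Finset

namespace Pool.Agent.P.MP_657a03_nt.LB

theorem succ_pow_le (B a : ℕ) (hB : 1 ≤ B) : (a + 1) ^ B ≤ B ^ B * 2 ^ a := by
  have h1 : a + 1 ≤ B * 2 ^ (a / B) := by
    have h2 : a / B + 1 ≤ 2 ^ (a / B) := Nat.lt_two_pow_self
    have h3 : a < B * (a / B + 1) := Nat.lt_mul_div_succ a hB
    calc a + 1 ≤ B * (a / B + 1) := h3
      _ ≤ B * 2 ^ (a / B) := Nat.mul_le_mul_left _ h2
  calc (a + 1) ^ B ≤ (B * 2 ^ (a / B)) ^ B := Nat.pow_le_pow_left h1 _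
    _ = B ^ B * 2 ^ (a / B * B) := by rw [mul_pow, ← pow_mul]
    _ ≤ B ^ B * 2 ^ a :=
      Nat.mul_le_mul_left _ (Nat.pow_le_pow_right (by omega) (Nat.div_mul_le_self a B))

theorem card_divisors_pow_le (B : ℕ) (hB : 1 ≤ B) :
    ∃ C : ℕ, ∀ n : ℕ, n ≠ 0 → n.divisors.card ^ B ≤ C * n := by
  refine ⟨(B ^ B) ^ (2 ^ B), fun n hn => ?_⟩
  have hBB : 1 ≤ B ^ B := Nat.one_le_pow _ _ hB
  rw [Nat.card_divisors hn, ← Finset.prod_pow]
  have h1 : ∏ p ∈ n.primeFactors, (n.factorization p + 1) ^ B ≤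
      ∏ p ∈ n.primeFactors, ((if p < 2 ^ B then B ^ B else 1) * p ^ n.factorization p) := by
    refine Finset.prod_le_prod' fun p hp => ?_
    have hp2 := (Nat.prime_of_mem_primeFactors hp).two_le
    split_ifs with h
    · exact (succ_pow_le B _ hB).trans (Nat.mul_le_mul_left _ (Nat.pow_le_pow_left hp2 _))
    · rw [one_mul]
      have h2 : n.factorization p + 1 ≤ 2 ^ n.factorization p := Nat.lt_two_pow_self
      calc (n.factorization p + 1) ^ B ≤ (2 ^ n.factorization p) ^ B := Nat.pow_le_pow_left h2 _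
        _ = (2 ^ B) ^ n.factorization p := by rw [← pow_mul, ← pow_mul, mul_comm]
        _ ≤ p ^ n.factorization p := Nat.pow_le_pow_left (by omega) _
  refine h1.trans ?_
  rw [Finset.prod_mul_distrib]
  have h2 : ∏ p ∈ n.primeFactors, p ^ n.factorization p = n := by
    conv_rhs => rw [← Nat.prod_factorization_pow_eq_self hn]
    rfl
  rw [h2]
  refine Nat.mul_le_mul_right _ ?_
  rw [← Finset.prod_filter, Finset.prod_const]
  refine Nat.pow_le_pow_right hBB ?_
  calc (n.primeFactors.filter fun p => p < 2 ^ B).card ≤ (Finset.range (2 ^ B)).card :=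
        Finset.card_le_card fun p hp => Finset.mem_range.2 (Finset.mem_filter.1 hp).2
    _ = 2 ^ B := Finset.card_range _

theorem teich {p a x : ℕ} (hp : p.Prime) (ha : a ^ (p - 1) ≡ 1 [MOD p ^ 2])
    (hx : x ^ (p - 1) ≡ 1 [MOD p ^ 2]) (h : (p : ℤ) ∣ (a : ℤ) - x) :
    (p : ℤ) ^ 2 ∣ (a : ℤ) - x := by
  have h1 := dvd_sub_pow_of_dvd_sub (R := ℤ) h 1
  rw [pow_one] at h1
  have h2 : (p : ℤ) ^ 2 ∣ 1 - (a : ℤ) ^ (p - 1) := by exact_mod_cast (Nat.modEq_iff_dvd.1 ha)
  have h3 : (p : ℤ) ^ 2 ∣ 1 - (x : ℤ) ^ (p - 1) := by exact_mod_cast (Nat.modEq_iff_dvd.1 hx)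
  obtain ⟨n, rfl⟩ : ∃ n, p = n + 1 := ⟨p - 1, by have := hp.pos; omega⟩
  rw [Nat.add_sub_cancel] at h2 h3
  have e : (a : ℤ) - x = ((a : ℤ) ^ (n + 1) - (x : ℤ) ^ (n + 1)) + a * (1 - (a : ℤ) ^ n) -
      x * (1 - (x : ℤ) ^ n) := by ring
  rw [e]
  exact dvd_sub (dvd_add h1 (h2.mul_left _)) (h3.mul_left _)

theorem decomp (G : Finset ℕ) (n : ℕ) (hn : n ≠ 0)
    (h : ∀ p : ℕ, p.Prime → p ∣ n → p ∉ G → p ^ 2 ∣ n) :
    ∃ g c d : ℕ, n = g * c ^ 2 * d ^ 3 ∧
      Real.log g ≤ ∑ p ∈ G, if p ∣ n then Real.log p else 0 := by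
  classical
  refine ⟨∏ p ∈ n.primeFactors, if n.factorization p = 1 then p else 1,
    ∏ p ∈ n.primeFactors, p ^ (if n.factorization p % 2 = 0 then n.factorization p / 2
      else (n.factorization p - 3) / 2),
    ∏ p ∈ n.primeFactors, if n.factorization p % 2 = 1 ∧ n.factorization p ≠ 1 then p else 1,
    ?_, ?_⟩
  · rw [← Finset.prod_pow, ← Finset.prod_pow, ← Finset.prod_mul_distrib,
      ← Finset.prod_mul_distrib]
    have h2 : ∏ p ∈ n.primeFactors, p ^ n.factorization p = n := by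
      conv_rhs => rw [← Nat.prod_factorization_pow_eq_self hn]
      rfl
    conv_lhs => rw [← h2]
    refine Finset.prod_congr rfl fun p _ => ?_
    generalize n.factorization p = v
    by_cases h1 : v = 1
    · subst h1; simp
    · by_cases h0 : v % 2 = 0
      · rw [if_neg h1, if_pos h0, if_neg (by omega), one_mul, one_pow, mul_one, ← pow_mul]
        congr 1; omega
      · rw [if_neg h1, if_neg h0, if_pos ⟨by omega, h1⟩, one_mul, ← pow_mul, ← pow_add]
        congr 1; omega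
  · rw [← Finset.prod_filter, ← Finset.sum_filter, Nat.cast_prod, Real.log_prod]
    · refine Finset.sum_le_sum_of_subset_of_nonneg ?_ (fun p _ _ => Real.log_natCast_nonneg p)
      intro p hp
      obtain ⟨h1, h2⟩ := Finset.mem_filter.1 hp
      have hpp := Nat.prime_of_mem_primeFactors h1
      have hd := Nat.dvd_of_mem_primeFactors h1
      refine Finset.mem_filter.2 ⟨?_, hd⟩
      by_contra hnot
      have := (hpp.pow_dvd_iff_le_factorization hn).1 (h p hpp hd hnot)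
      omega
    · intro p hp
      have := (Nat.prime_of_mem_primeFactors (Finset.mem_filter.1 hp).1).ne_zero
      exact_mod_cast this

theorem sum_log_le (G : Finset ℕ) (hG : ∀ p ∈ G, p.Prime) (n : ℕ) (hn : n ≠ 0) :
    (∑ p ∈ G, if p ∣ n then Real.log p else 0) ≤ Real.log n := by
  rw [← Finset.sum_filter, ← Real.log_prod, ← Nat.cast_prod]
  · have h1 : ∏ p ∈ G.filter (fun p => p ∣ n), p ∣ n :=
      Finset.prod_primes_dvd n (fun p hp => (hG p (Finset.mem_filter.1 hp).1).prime)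
        (fun p hp => (Finset.mem_filter.1 hp).2)
    have h2 := Nat.le_of_dvd (Nat.pos_of_ne_zero hn) h1
    have h3 : 0 < ∏ p ∈ G.filter (fun p => p ∣ n), p :=
      Finset.prod_pos fun p hp => (hG p (Finset.mem_filter.1 hp).1).pos
    exact Real.log_le_log (by exact_mod_cast h3) (by exact_mod_cast h2)
  · intro p hp
    have := (hG p (Finset.mem_filter.1 hp).1).ne_zero
    exact_mod_cast this

/-- total logarithm of the primes of `G` modulo which `a` and `x` agree -/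
noncomputable def W (G : Finset ℕ) (a x : ℕ) : ℝ :=
  ∑ p ∈ G, if a % p = x % p then Real.log p else 0

theorem W_nonneg (G : Finset ℕ) (a x : ℕ) : 0 ≤ W G a x :=
  Finset.sum_nonneg fun p _ => by
    split_ifs
    · exact Real.log_natCast_nonneg p
    · exact le_rfl

theorem mod_iff (p a x : ℕ) : a % p = x % p ↔ p ∣ ((a : ℤ) - x).natAbs := by
  rw [← Int.natCast_dvd, ← Nat.modEq_iff_dvd]
  exact eq_comm

theorem W_eq (G : Finset ℕ) (a x : ℕ) :
    W G a x = ∑ p ∈ G, if p ∣ ((a : ℤ) - x).natAbs then Real.log p else 0 := by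
  unfold W
  simp only [mod_iff]

theorem sum_W (G A : Finset ℕ) (f g : ℕ → ℕ) :
    ∑ z ∈ A ×ˢ A, W G (f z.1) (g z.2) = ∑ p ∈ G,
      (((A ×ˢ A).filter (fun z => f z.1 % p = g z.2 % p)).card : ℝ) * Real.log p := by
  unfold W
  rw [Finset.sum_comm]
  refine Finset.sum_congr rfl fun p _ => ?_
  rw [← Finset.sum_filter, Finset.sum_const, nsmul_eq_mul]

theorem sumW_le (G A : Finset ℕ) (hG : ∀ p ∈ G, p.Prime) (M : ℕ) (hM : ∀ a ∈ A, a ≤ M)
    (s t : ℕ) (hst : s.Coprime t) (hs : ∀ a ∈ A, a.Coprime s) (ht : ∀ a ∈ A, a.Coprime t) :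
    ∑ z ∈ A ×ˢ A, W G (z.1 * s) (z.2 * t) ≤
      A.card * ∑ p ∈ G, Real.log p + (A.card : ℝ) ^ 2 * Real.log M := by
  have h1 : ∑ z ∈ A ×ˢ A, W G (z.1 * s) (z.2 * t) ≤ ∑ z ∈ A ×ˢ A, W G z.1 z.2 := by
    rw [sum_W G A (fun a => a * s) (fun a => a * t), sum_W G A (fun a => a) (fun a => a)]
    refine Finset.sum_le_sum fun p hp => mul_le_mul_of_nonneg_right ?_
      (Real.log_natCast_nonneg p)
    have pp := hG p hp
    by_cases hps : p ∣ s
    · rw [Finset.card_eq_zero.2]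
      · simp
      · rw [Finset.filter_eq_empty_iff]
        intro z hz h
        have h0 : p ∣ z.2 * t := by
          rw [Nat.dvd_iff_mod_eq_zero, ← h, ← Nat.dvd_iff_mod_eq_zero]
          exact hps.mul_left _
        rcases pp.dvd_mul.1 h0 with h2 | h2
        · exact pp.one_lt.ne' (Nat.eq_one_of_dvd_coprimes
            (hs _ (Finset.mem_product.1 hz).2) h2 hps)
        · exact pp.one_lt.ne' (Nat.eq_one_of_dvd_coprimes hst hps h2)
    by_cases hpt : p ∣ t
    · rw [Finset.card_eq_zero.2]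
      · simp
      · rw [Finset.filter_eq_empty_iff]
        intro z hz h
        have h0 : p ∣ z.1 * s := by
          rw [Nat.dvd_iff_mod_eq_zero, h, ← Nat.dvd_iff_mod_eq_zero]
          exact hpt.mul_left _
        rcases pp.dvd_mul.1 h0 with h2 | h2
        · exact pp.one_lt.ne' (Nat.eq_one_of_dvd_coprimes
            (ht _ (Finset.mem_product.1 hz).1) h2 hpt)
        · exact hps h2
    have h2 := cs2 A (Finset.range p) (fun a => a * s % p) (fun a => a * t % p)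
      (fun a _ => Finset.mem_range.2 (Nat.mod_lt _ pp.pos))
      (fun a _ => Finset.mem_range.2 (Nat.mod_lt _ pp.pos))
    have h3 : ∀ c : ℕ, ¬ p ∣ c → (A ×ˢ A).filter (fun z => z.1 * c % p = z.2 * c % p) =
        (A ×ˢ A).filter (fun z => z.1 % p = z.2 % p) := by
      intro c hc
      refine Finset.filter_congr fun z _ => ⟨fun h => ?_, fun h => ?_⟩
      · exact Nat.ModEq.cancel_right_of_coprime ((Nat.Prime.coprime_iff_not_dvd pp).2 hc) h
      · exact Nat.ModEq.mul_right c h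
    rw [h3 s hps, h3 t hpt] at h2
    have h4 : ((A ×ˢ A).filter (fun z => z.1 * s % p = z.2 * t % p)).card ≤
        ((A ×ˢ A).filter (fun z => z.1 % p = z.2 % p)).card := by omega
    exact_mod_cast h4
  refine h1.trans ?_
  have hlM : 0 ≤ Real.log M := Real.log_natCast_nonneg M
  have hθ : 0 ≤ ∑ p ∈ G, Real.log p := Finset.sum_nonneg fun p _ => Real.log_natCast_nonneg p
  have h2 : ∀ z ∈ A ×ˢ A, W G z.1 z.2 ≤
      (if z.1 = z.2 then ∑ p ∈ G, Real.log p else 0) + Real.log M := by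
    intro z hz
    obtain ⟨z1, z2⟩ := Finset.mem_product.1 hz
    split_ifs with h
    · have : W G z.1 z.2 = ∑ p ∈ G, Real.log p := by
        unfold W; rw [h]; simp
      linarith
    · rw [zero_add, W_eq]
      have hn : ((z.1 : ℤ) - z.2).natAbs ≠ 0 := by omega
      refine (sum_log_le G hG _ hn).trans (Real.log_le_log ?_ ?_)
      · exact_mod_cast Nat.pos_of_ne_zero hn
      · have := hM _ z1
        have := hM _ z2
        have : ((z.1 : ℤ) - z.2).natAbs ≤ M := by omega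
        exact_mod_cast this
  refine (Finset.sum_le_sum h2).trans (le_of_eq ?_)
  rw [Finset.sum_add_distrib, Finset.sum_const, Finset.card_product, nsmul_eq_mul,
    Finset.sum_product]
  congr 1
  · rw [Finset.sum_congr rfl (g := fun _ => ∑ p ∈ G, Real.log p)]
    · rw [Finset.sum_const, nsmul_eq_mul]
    · intro a ha
      simp [ha]
  · push_cast; ring

/-- products of `k` distinct elements of `Q` -/
def Sm (Q : Finset ℕ) (k : ℕ) : Finset ℕ :=
  (Finset.powersetCard k Q).image (fun s => ∏ p ∈ s, p)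

theorem Sm_card (Q : Finset ℕ) (hQ : ∀ p ∈ Q, p.Prime) (k : ℕ) :
    (Sm Q k).card = Q.card.choose k := by
  unfold Sm
  rw [Finset.card_image_of_injOn, Finset.card_powersetCard]
  intro s hs t ht hst
  have s1 := (Finset.mem_powersetCard.1 hs).1
  have t1 := (Finset.mem_powersetCard.1 ht).1
  rw [← Nat.primeFactors_prod (s := s) (fun p hp => hQ p (s1 hp)),
    ← Nat.primeFactors_prod (s := t) (fun p hp => hQ p (t1 hp))]
  exact congrArg Nat.primeFactors hst

theorem Sm_le {Q : Finset ℕ} {y k a : ℕ} (hQ : ∀ p ∈ Q, p ≤ y) (ha : a ∈ Sm Q k) :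
    a ≤ y ^ k := by
  obtain ⟨s, hs, rfl⟩ := Finset.mem_image.1 ha
  obtain ⟨s1, s2⟩ := Finset.mem_powersetCard.1 hs
  rw [← s2]
  exact Finset.prod_le_pow_card _ _ _ fun p hp => hQ p (s1 hp)

theorem Sm_pos {Q : Finset ℕ} {k a : ℕ} (hQ : ∀ p ∈ Q, p.Prime) (ha : a ∈ Sm Q k) :
    0 < a := by
  obtain ⟨s, hs, rfl⟩ := Finset.mem_image.1 ha
  obtain ⟨s1, -⟩ := Finset.mem_powersetCard.1 hs
  exact Finset.prod_pos fun p hp => (hQ p (s1 hp)).pos

theorem Sm_ne_one {Q : Finset ℕ} {k a : ℕ} (hQ : ∀ p ∈ Q, p.Prime) (hk : 1 ≤ k)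
    (ha : a ∈ Sm Q k) : a ≠ 1 := by
  obtain ⟨s, hs, rfl⟩ := Finset.mem_image.1 ha
  obtain ⟨s1, s2⟩ := Finset.mem_powersetCard.1 hs
  obtain ⟨p, hp⟩ := Finset.card_pos.1 (show 0 < s.card by omega)
  intro h
  have h1 : p ∣ ∏ p ∈ s, p := Finset.dvd_prod_of_mem _ hp
  rw [h] at h1
  exact (hQ p (s1 hp)).one_lt.ne' (Nat.dvd_one.1 h1)

theorem Sm_coprime {Q R : Finset ℕ} {k l a b : ℕ} (hQ : ∀ p ∈ Q, p.Prime)
    (hR : ∀ p ∈ R, p.Prime) (hd : Disjoint Q R) (ha : a ∈ Sm Q k) (hb : b ∈ Sm R l) :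
    a.Coprime b := by
  obtain ⟨s, hs, rfl⟩ := Finset.mem_image.1 ha
  obtain ⟨t, ht, rfl⟩ := Finset.mem_image.1 hb
  have s1 := (Finset.mem_powersetCard.1 hs).1
  have t1 := (Finset.mem_powersetCard.1 ht).1
  refine Nat.Coprime.prod_left fun p hp => Nat.Coprime.prod_right fun q hq => ?_
  refine (Nat.coprime_primes (hQ p (s1 hp)) (hR q (t1 hq))).2 fun h => ?_
  exact Finset.disjoint_left.1 hd (s1 hp) (h ▸ t1 hq)

theorem Sm_teich {Q : Finset ℕ} {k a m n : ℕ} (hQ : ∀ q ∈ Q, q ^ n ≡ 1 [MOD m])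
    (ha : a ∈ Sm Q k) : a ^ n ≡ 1 [MOD m] := by
  obtain ⟨s, hs, rfl⟩ := Finset.mem_image.1 ha
  have s1 := (Finset.mem_powersetCard.1 hs).1
  refine Finset.prod_induction _ (fun a => a ^ n ≡ 1 [MOD m]) ?_ ?_ fun q hq => hQ q (s1 hq)
  · intro a b ha hb
    rw [mul_pow]
    simpa using ha.mul hb
  · simp [Nat.ModEq]

end Pool.Agent.P.MP_657a03_nt.LB
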