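import Pool.Agent.P.MP_657a03_nt.LB.B

set_option autoImplicit false

open Finset

namespace Pool.Agent.P.MP_657a03_nt.LB

theorem colour (a x N G0 m0 g c d : ℕ) (hne : a ≠ x) (ha : a ≤ N) (hx : x ≤ N)
    (h : ((a : ℤ) - x).natAbs = g * c ^ 2 * d ^ 3) (hg : g ≤ G0)
    (hm : ∀ m : ℕ, m ^ 5 ≤ N → m ≤ m0) :
    ∃ κ ∈ (({1, -1} : Finset ℤ) ×ˢ ({2, 3} : Finset ℕ) ×ˢ Finset.Icc 1 G0 ×ˢ Finset.Icc 1 m0),
      (κ.2.1 = 2 ∨ κ.2.1 = 3) ∧ ∃ z : ℤ, 0 < z ∧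
        (a : ℤ) - x = (κ.1 * κ.2.2.1 * (κ.2.2.2 : ℤ) ^ (5 - κ.2.1)) * z ^ κ.2.1 := by
  have hn : ((a : ℤ) - x).natAbs ≠ 0 := by omega
  have hN : ((a : ℤ) - x).natAbs ≤ N := by omega
  rw [h] at hn hN
  have g0 : 0 < g := Nat.pos_of_ne_zero fun h0 => hn (by simp [h0])
  have c0 : 0 < c := Nat.pos_of_ne_zero fun h0 => hn (by simp [h0])
  have d0 : 0 < d := Nat.pos_of_ne_zero fun h0 => hn (by simp [h0])
  have hcd : c ^ 2 * d ^ 3 ≤ N := by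
    refine le_trans ?_ hN
    rw [mul_assoc]
    exact Nat.le_mul_of_pos_left _ g0
  obtain ⟨s, hs, hs'⟩ : ∃ s : ℤ, s ∈ ({1, -1} : Finset ℤ) ∧
      (a : ℤ) - x = s * ((g : ℤ) * (c : ℤ) ^ 2 * (d : ℤ) ^ 3) := by
    rcases Int.natAbs_eq ((a : ℤ) - x) with h2 | h2
    · exact ⟨1, by simp, by rw [h2, h]; push_cast; ring⟩
    · exact ⟨-1, by simp, by rw [h2, h]; push_cast; ring⟩
  rcases le_total c d with hle | hle
  · have hc : c ≤ m0 := by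
      refine hm c (le_trans ?_ hcd)
      calc c ^ 5 = c ^ 2 * c ^ 3 := by ring
        _ ≤ c ^ 2 * d ^ 3 := Nat.mul_le_mul_left _ (Nat.pow_le_pow_left hle 3)
    refine ⟨(s, 3, g, c), ?_, Or.inr rfl, d, by exact_mod_cast d0, ?_⟩
    · simp only [Finset.mem_product, Finset.mem_Icc]
      exact ⟨hs, by simp, ⟨g0, hg⟩, c0, hc⟩
    · rw [hs']; ring
  · have hd : d ≤ m0 := by
      refine hm d (le_trans ?_ hcd)
      calc d ^ 5 = d ^ 2 * d ^ 3 := by ring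
        _ ≤ c ^ 2 * d ^ 3 := Nat.mul_le_mul_right _ (Nat.pow_le_pow_left hle 2)
    refine ⟨(s, 2, g, d), ?_, Or.inl rfl, c, by exact_mod_cast c0, ?_⟩
    · simp only [Finset.mem_product, Finset.mem_Icc]
      exact ⟨hs, by simp, ⟨g0, hg⟩, d0, hd⟩
    · rw [hs']; ring

theorem core (y k l r : ℕ) (Q1 Q2 Q3 : Finset ℕ)
    (h1 : ∀ p ∈ Q1, p.Prime ∧ p ≤ y) (h2 : ∀ p ∈ Q2, p.Prime ∧ p ≤ y)
    (h3 : ∀ p ∈ Q3, p.Prime ∧ p ≤ y)
    (d12 : Disjoint Q1 Q2) (d13 : Disjoint Q1 Q3) (d23 : Disjoint Q2 Q3)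
    (c1 : Q1.card = r) (c2 : Q2.card = r) (c3 : Q3.card = r)
    (hk : 1 ≤ k) (hkr : k ≤ r) (hlr : l ≤ r)
    (G : Finset ℕ) (hG : ∀ p ∈ G, p.Prime)
    (hbad : ∀ p : ℕ, p.Prime → p ≤ y ^ (l + k) → p ∉ G →
      ∀ q : ℕ, q.Prime → q ≤ y → q ^ (p - 1) ≡ 1 [MOD p ^ 2])
    (T G0 m0 : ℕ) (hT1 : 1 ≤ T) (hT : ∀ n : ℕ, n ≠ 0 → n ≤ y ^ (l + k) → n.divisors.card ≤ T)
    (hm : ∀ m : ℕ, m ^ 5 ≤ y ^ (l + k) → m ≤ m0)
    (B : ℝ) (hB0 : 0 < B)
    (hB : Real.log ((y ^ l : ℕ) : ℝ) + (∑ p ∈ G, Real.log p) / (r.choose l) ≤ B)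
    (hG0 : ∀ g : ℕ, Real.log g ≤ 2 * B → g ≤ G0) :
    r.choose k ≤ 144 * G0 * m0 * T ^ 2 := by
  classical
  have p1 : ∀ p ∈ Q1, p.Prime := fun p hp => (h1 p hp).1
  have p2 : ∀ p ∈ Q2, p.Prime := fun p hp => (h2 p hp).1
  have p3 : ∀ p ∈ Q3, p.Prime := fun p hp => (h3 p hp).1
  set A1 := Sm Q1 l with hA1
  set A2 := Sm Q2 k with hA2
  set A3 := Sm Q3 k with hA3
  have k1 : A1.card = r.choose l := by rw [hA1, Sm_card _ p1, c1]
  have k2 : A2.card = r.choose k := by rw [hA2, Sm_card _ p2, c2]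
  have k3 : A3.card = r.choose k := by rw [hA3, Sm_card _ p3, c3]
  have s1 : 0 < r.choose l := Nat.choose_pos hlr
  have s2 : 0 < r.choose k := Nat.choose_pos hkr
  have s1' : (0 : ℝ) < r.choose l := by exact_mod_cast s1
  have e1 : ∀ w ∈ A2 ×ˢ A3, ∑ z ∈ A1 ×ˢ A1, W G (z.1 * w.1) (z.2 * w.2) ≤
      ((r.choose l : ℝ)) ^ 2 * B := by
    intro w hw
    obtain ⟨w1, w2⟩ := Finset.mem_product.1 hw
    have := sumW_le G A1 hG (y ^ l) (fun a ha => Sm_le (fun p hp => (h1 p hp).2) ha) w.1 w.2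
      (Sm_coprime p2 p3 d23 w1 w2) (fun a ha => Sm_coprime p1 p2 d12 ha w1)
      (fun a ha => Sm_coprime p1 p3 d13 ha w2)
    rw [k1] at this
    refine this.trans ?_
    have h5 := mul_le_mul_of_nonneg_left hB (sq_nonneg (r.choose l : ℝ))
    refine le_trans (le_of_eq ?_) h5
    field_simp
    ring
  obtain ⟨z, hz, hzB⟩ : ∃ z ∈ A1 ×ˢ A1, ∑ w ∈ A2 ×ˢ A3, W G (z.1 * w.1) (z.2 * w.2) ≤
      ((r.choose k : ℝ)) ^ 2 * B := by
    refine Finset.exists_le_of_sum_le ?_ ?_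
    · rw [← Finset.card_pos, Finset.card_product, k1]
      positivity
    · rw [Finset.sum_comm]
      refine (Finset.sum_le_sum e1).trans (le_of_eq ?_)
      rw [Finset.sum_const, Finset.sum_const, Finset.card_product, Finset.card_product, k1, k2,
        k3, nsmul_eq_mul, nsmul_eq_mul]
      push_cast
      ring
  obtain ⟨a, b⟩ := z
  obtain ⟨ha, hb⟩ := Finset.mem_product.1 hz
  simp only at ha hb hzB
  have a0 : 0 < a := Sm_pos p1 ha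
  have b0 : 0 < b := Sm_pos p1 hb
  have aN : ∀ s ∈ A2, a * s ≤ y ^ (l + k) := fun s hs => by
    rw [pow_add]
    exact Nat.mul_le_mul (Sm_le (fun p hp => (h1 p hp).2) ha) (Sm_le (fun p hp => (h2 p hp).2) hs)
  have bN : ∀ t ∈ A3, b * t ≤ y ^ (l + k) := fun t ht => by
    rw [pow_add]
    exact Nat.mul_le_mul (Sm_le (fun p hp => (h1 p hp).2) hb) (Sm_le (fun p hp => (h3 p hp).2) ht)
  set E := (A2 ×ˢ A3).filter (fun w => W G (a * w.1) (b * w.2) ≤ 2 * B) with hE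
  have hE2 : (r.choose k) ^ 2 ≤ 2 * E.card := by
    set F := (A2 ×ˢ A3).filter (fun w => ¬ W G (a * w.1) (b * w.2) ≤ 2 * B) with hF
    have f1 : E.card + F.card = (r.choose k) ^ 2 := by
      rw [hE, hF, Finset.card_filter_add_card_filter_not, Finset.card_product, k2, k3, sq]
    have f2 : (F.card : ℝ) * (2 * B) ≤ ((r.choose k : ℝ)) ^ 2 * B := by
      refine le_trans ?_ hzB
      refine le_trans ?_ (Finset.sum_le_sum_of_subset_of_nonneg (s := F)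
        (Finset.filter_subset _ _) (fun w _ _ => W_nonneg _ _ _))
      rw [← nsmul_eq_mul]
      exact Finset.card_nsmul_le_sum _ _ _ fun w hw => (not_le.1 (Finset.mem_filter.1 hw).2).le
    have f3 : (2 * F.card : ℝ) ≤ ((r.choose k : ℝ)) ^ 2 := by
      refine le_of_mul_le_mul_right ?_ hB0
      linarith
    have f4 : 2 * F.card ≤ (r.choose k) ^ 2 := by exact_mod_cast f3
    omega
  have hE1 : E.card ≤ (r.choose k) ^ 2 := by
    refine (Finset.card_filter_le _ _).trans (le_of_eq ?_)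
    rw [Finset.card_product, k2, k3, sq]
  have hch := cherry A2 A3
    (({1, -1} : Finset ℤ) ×ˢ ({2, 3} : Finset ℕ) ×ˢ Finset.Icc 1 G0 ×ˢ Finset.Icc 1 m0) E
    (Finset.filter_subset _ _)
    (fun s t κ => (κ.2.1 = 2 ∨ κ.2.1 = 3) ∧ ∃ z : ℤ, 0 < z ∧
      ((a * s : ℕ) : ℤ) - ((b * t : ℕ) : ℤ) =
        (κ.1 * κ.2.2.1 * (κ.2.2.2 : ℤ) ^ (5 - κ.2.1)) * z ^ κ.2.1) ?_ (8 * T ^ 2) ?_
  · rw [Finset.card_product, Finset.card_product, Finset.card_product, Nat.card_Icc,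
      Nat.card_Icc, k2, k3, show ({1, -1} : Finset ℤ).card = 2 by decide,
      show ({2, 3} : Finset ℕ).card = 2 by decide, Nat.add_sub_cancel, Nat.add_sub_cancel] at hch
    generalize r.choose k = S at *
    generalize E.card = e at *
    have t1 : e + 8 * T ^ 2 * S ^ 2 ≤ 9 * T ^ 2 * S ^ 2 := by
      have : S ^ 2 ≤ T ^ 2 * S ^ 2 := Nat.le_mul_of_pos_left _ (by positivity)
      nlinarith
    have t2 : (S ^ 2) ^ 2 ≤ (2 * e) ^ 2 := Nat.pow_le_pow_left hE2 2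
    have t3 := hch.trans (Nat.mul_le_mul_left _ t1)
    have t4 : S ^ 3 * S ≤ S ^ 3 * (144 * G0 * m0 * T ^ 2) := by
      calc S ^ 3 * S = (S ^ 2) ^ 2 := by ring
        _ ≤ (2 * e) ^ 2 := t2
        _ = 4 * e ^ 2 := by ring
        _ ≤ 4 * (S * (2 * (2 * (G0 * m0))) * (9 * T ^ 2 * S ^ 2)) := Nat.mul_le_mul_left _ t3
        _ = S ^ 3 * (144 * G0 * m0 * T ^ 2) := by ring
    exact Nat.le_of_mul_le_mul_left t4 (by positivity)
  · intro w hw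
    obtain ⟨hw1, hw2⟩ := Finset.mem_filter.1 hw
    obtain ⟨w1, w2⟩ := Finset.mem_product.1 hw1
    have hne : a * w.1 ≠ b * w.2 := by
      intro h
      have q1 : (w.1).Coprime (b * w.2) :=
        Nat.Coprime.mul_right (Sm_coprime p1 p2 d12 hb w1).symm (Sm_coprime p2 p3 d23 w1 w2)
      rw [← h] at q1
      exact Sm_ne_one p2 hk w1 (Nat.eq_one_of_dvd_coprimes q1 dvd_rfl (Dvd.intro_left _ rfl))
    have n1 := aN _ w1
    have n2 := bN _ w2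
    have hn : (((a * w.1 : ℕ) : ℤ) - ((b * w.2 : ℕ) : ℤ)).natAbs ≠ 0 := by omega
    obtain ⟨g, c, d, hgcd, hg⟩ := decomp G _ hn (by
      intro p pp hp hpG
      have hpN : p ≤ y ^ (l + k) :=
        (Nat.le_of_dvd (Nat.pos_of_ne_zero hn) hp).trans (by omega)
      have hb' := hbad p pp hpN hpG
      have t1 : ∀ {i u : ℕ} {Q : Finset ℕ}, (∀ p ∈ Q, p.Prime ∧ p ≤ y) → u ∈ Sm Q i →
          u ^ (p - 1) ≡ 1 [MOD p ^ 2] := fun hQ hu =>
        Sm_teich (fun q hq => hb' q (hQ q hq).1 (hQ q hq).2) hu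
      have t2 : (a * w.1) ^ (p - 1) ≡ 1 [MOD p ^ 2] := by
        rw [mul_pow]; simpa using (t1 h1 ha).mul (t1 h2 w1)
      have t3 : (b * w.2) ^ (p - 1) ≡ 1 [MOD p ^ 2] := by
        rw [mul_pow]; simpa using (t1 h1 hb).mul (t1 h3 w2)
      have t4 := teich pp t2 t3 (Int.natCast_dvd.2 hp)
      rw [← Int.natCast_dvd]
      exact_mod_cast t4)
    rw [← W_eq] at hg
    exact colour _ _ _ G0 m0 g c d hne n1 n2 hgcd (hG0 g (hg.trans hw2)) hm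
  · intro t1 ht1 t2 ht2 hne S hS
    have hne' : b * t1 ≠ b * t2 := fun h => hne (Nat.eq_of_mul_eq_mul_left b0 h)
    have n1 := bN _ ht1
    have n2 := bN _ ht2
    have := two_nbrs (fun s : ℕ => ((a * s : ℕ) : ℤ)) ((b * t1 : ℕ) : ℤ) ((b * t2 : ℕ) : ℤ)
      (by exact_mod_cast hne') S
      (fun s _ s' _ h => Nat.eq_of_mul_eq_mul_left a0 (Int.natCast_inj.1 h))
      (fun s hs => by
        obtain ⟨-, κ, -, ⟨q1, z1, q2, q3⟩, -, z2, q4, q5⟩ := hS s hs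
        exact ⟨κ.2.1, _, z1, z2, q1, q2, q4, q3, q5⟩)
    refine this.trans (Nat.mul_le_mul_left _ (Nat.pow_le_pow_left (hT _ ?_ ?_) 2))
    · omega
    · omega

end Pool.Agent.P.MP_657a03_nt.LB
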