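import Pool.Agent.P.MP_657a03_nt.LB.C

set_option autoImplicit false

open Finset Filter

namespace Pool.Agent.P.MP_657a03_nt.LB

theorem choose_ge (r k : ℕ) (t : ℝ) (hk : 1 ≤ k) (ht : 1 ≤ t) (h : 2 * k * t ≤ r) :
    k ≤ r ∧ t ^ k ≤ r.choose k := by
  have k0 : (1 : ℝ) ≤ k := by exact_mod_cast hk
  have k1 : (k : ℝ) ≤ k * t := le_mul_of_one_le_right (by linarith) ht
  have hkr : k ≤ r := by
    have : (k : ℝ) ≤ r := by linarith
    exact_mod_cast this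
  refine ⟨hkr, le_trans ?_ (Nat.pow_le_choose k r)⟩
  have f0 : (0 : ℝ) < k.factorial := by exact_mod_cast k.factorial_pos
  have f1 : (k.factorial : ℝ) ≤ (k : ℝ) ^ k := by exact_mod_cast Nat.factorial_le_pow k
  rw [le_div_iff₀ f0]
  have e : ((r + 1 - k : ℕ) : ℝ) = r + 1 - k := by
    rw [Nat.cast_sub (by omega)]; push_cast; ring
  calc t ^ k * k.factorial ≤ t ^ k * (k : ℝ) ^ k := by gcongr
    _ = (k * t) ^ k := by rw [mul_pow, mul_comm]
    _ ≤ ((r + 1 - k : ℕ) : ℝ) ^ k := by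
      refine pow_le_pow_left₀ (by linarith) ?_ k
      rw [e]; linarith

theorem log_ev (c s : ℝ) (hc : 0 < c) (hs : 0 < s) :
    ∀ᶠ y : ℝ in atTop, Real.log y ≤ c * y ^ s := by
  have h := (isLittleO_log_rpow_atTop hs).bound hc
  filter_upwards [h, eventually_ge_atTop 0] with y hy h0
  rw [Real.norm_eq_abs, Real.norm_eq_abs, abs_of_nonneg (Real.rpow_nonneg h0 s)] at hy
  exact (le_abs_self _).trans hy

theorem pi_ev (δ : ℝ) (hδ : 0 < δ) :
    ∀ᶠ y : ℕ in atTop, 9 * Real.exp ((1 - δ) * Real.log y) ≤ (Nat.primeCounting y : ℝ) := by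
  have h1 := (tendsto_natCast_atTop_atTop (R := ℝ)).eventually (log_ev (1 / 36) δ (by norm_num) hδ)
  have h2 := (tendsto_natCast_atTop_atTop (R := ℝ)).eventually
    (log_ev (1 / 8) 1 (by norm_num) one_pos)
  filter_upwards [h1, h2, eventually_ge_atTop 2] with y a1 a2 a3
  have y2 : (2 : ℝ) ≤ y := by exact_mod_cast a3
  have y0 : (0 : ℝ) < y := by linarith
  have l0 : 0 < Real.log y := Real.log_pos (by linarith)
  refine le_trans ?_ (Chebyshev.pi_ge y)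
  rw [le_div_iff₀ l0]
  rw [Real.rpow_one] at a2
  have b1 : Real.log ((y : ℝ) + 1) ≤ 2 * Real.log y := by
    have : Real.log ((y : ℝ) + 1) ≤ Real.log ((y : ℝ) ^ 2) :=
      Real.log_le_log (by linarith) (by nlinarith)
    rw [Real.log_pow] at this
    exact_mod_cast this
  have b2 : (1 / 2 : ℝ) ≤ Real.log 2 := by have := Real.log_two_gt_d9; linarith
  have b3 : Real.exp ((1 - δ) * Real.log y) * (y : ℝ) ^ δ = y := by
    rw [Real.rpow_def_of_pos y0, ← Real.exp_add]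
    conv_rhs => rw [← Real.exp_log y0]
    congr 1; ring
  have b4 : Real.exp ((1 - δ) * Real.log y) * Real.log y ≤
      Real.exp ((1 - δ) * Real.log y) * (1 / 36 * (y : ℝ) ^ δ) :=
    mul_le_mul_of_nonneg_left a1 (Real.exp_pos _).le
  nlinarith

/-- some base up to `(log p)^u` is not a Wieferich base of the prime `p` -/
def Good (u : ℝ) (p : ℕ) : Prop :=
  p.Prime ∧ ∃ a : ℕ, 2 ≤ a ∧ (a : ℝ) ≤ Real.log p ^ u ∧ ¬ p ∣ a ∧
    ¬ a ^ (p - 1) ≡ 1 [MOD p ^ 2]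

open Classical in
theorem finite_step (u v δ : ℝ) (x : ℕ) (hu : 0 < u) (hv : 1 ≤ v) (hδ : 0 < δ)
    (hθ : 1 - 1 / v = 1 / 5 + 11 * δ) (hx : 1 < x)
    (H1 : 2 / δ ≤ Real.log (Real.log x))
    (H2 : v * Real.log (Real.log x) ≤ δ / 20 * Real.log x)
    (H3 : v * Real.log (Real.log x) ≤ u * (Real.log (δ / 20) + Real.log (Real.log x)))
    (H4 : 2 / δ ≤ Real.exp (δ / 20 * Real.log x))
    (H5 : 144 < Real.exp (δ * Real.log x))
    (H6 : 9 * Real.exp ((1 - δ) * Real.log (⌊Real.exp (v * Real.log (Real.log x))⌋₊ : ℕ)) ≤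
      (Nat.primeCounting ⌊Real.exp (v * Real.log (Real.log x))⌋₊ : ℝ))
    (H7 : ∀ n : ℕ, n ≠ 0 → n ≤ x → (n.divisors.card : ℝ) ≤ Real.exp (δ * Real.log x)) :
    Real.exp (δ / 20 * Real.log x) ≤ (((Finset.range (x + 1)).filter (Good u)).card : ℝ) := by
  by_contra hcon
  rw [not_le] at hcon
  have x1 : (1 : ℝ) < x := by exact_mod_cast hx
  have hex : Real.exp (Real.log x) = x := Real.exp_log (by linarith)
  have l0 : 0 < Real.log x := Real.log_pos x1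
  generalize hℓ : Real.log x = ℓ at *
  have heℓ : Real.exp (Real.log ℓ) = ℓ := Real.exp_log l0
  generalize hΛ : Real.log ℓ = Λ at *
  have v0 : 0 < 1 / v := by positivity
  have v1 : 1 / v ≤ 1 := by rw [div_le_one (by linarith)]; exact hv
  have vv : 1 / v * v = 1 := by field_simp
  have δ1 : δ ≤ 4 / 55 := by linarith
  have Λ1 : 2 ≤ δ * Λ := by rw [div_le_iff₀ hδ] at H1; linarith
  have Λ0 : 2 ≤ Λ := by nlinarith
  have vΛ : Λ ≤ v * Λ := le_mul_of_one_le_left (by linarith) hv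
  set y := ⌊Real.exp (v * Λ)⌋₊ with hy
  have y1 : (y : ℝ) ≤ Real.exp (v * Λ) := Nat.floor_le (Real.exp_pos _).le
  have y2 : Real.exp (v * Λ) < y + 1 := Nat.lt_floor_add_one _
  have y3 : 1 ≤ y := Nat.le_floor (by simpa using Real.one_le_exp (by linarith))
  have y4 : (1 : ℝ) ≤ y := by exact_mod_cast y3
  have hey : Real.exp (Real.log y) = y := Real.exp_log (by linarith)
  have m1 : Real.log y ≤ v * Λ := by rw [Real.log_le_iff_le_exp (by linarith)]; exact y1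
  have m2 : v * Λ - 1 ≤ Real.log y := by
    have a1 : Real.exp (v * Λ) ≤ Real.exp (1 + Real.log y) := by
      rw [Real.exp_add, hey]
      have := Real.add_one_le_exp 1
      nlinarith
    have := Real.exp_le_exp.1 a1
    linarith
  have hlogpow : ∀ i : ℕ, Real.log ((y ^ i : ℕ) : ℝ) = i * Real.log y := fun i => by
    rw [Nat.cast_pow, Real.log_pow]
  generalize hm : Real.log y = m at *
  have m3 : 1 ≤ m := by linarith
  have m4 : Λ ≤ (1 / v + δ) * m := by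
    have a1 : (1 / v + δ) * (v * Λ - 1) ≤ (1 / v + δ) * m :=
      mul_le_mul_of_nonneg_left m2 (by linarith)
    have a2 : (1 / v + δ) * (v * Λ - 1) = Λ + δ * (v * Λ) - (1 / v + δ) := by
      have : 1 / v * (v * Λ) = Λ := by rw [← mul_assoc, vv, one_mul]
      linarith [mul_sub (1 / v + δ) (v * Λ) 1, add_mul (1 / v) δ (v * Λ)]
    have a3 : δ * Λ ≤ δ * (v * Λ) := mul_le_mul_of_nonneg_left vΛ hδ.le
    linarith
  have m5 : m ≤ δ / 20 * ℓ := m1.trans H2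
  have δℓ : 0 < δ * ℓ := mul_pos hδ l0
  have fl : ∀ s : ℝ, 0 ≤ s → (⌊s / m⌋₊ : ℝ) * m ≤ s ∧ s - m ≤ (⌊s / m⌋₊ : ℝ) * m := by
    intro s hs
    have a1 : (⌊s / m⌋₊ : ℝ) ≤ s / m := Nat.floor_le (by positivity)
    have a2 : s / m < ⌊s / m⌋₊ + 1 := Nat.lt_floor_add_one _
    rw [le_div_iff₀ (by linarith)] at a1
    rw [div_lt_iff₀ (by linarith)] at a2
    exact ⟨a1, by linarith⟩
  obtain ⟨k1, k2⟩ := fl ((1 - δ) * ℓ) (mul_nonneg (by linarith) l0.le)
  obtain ⟨l1, l2⟩ := fl (δ * ℓ) δℓ.le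
  generalize ⌊(1 - δ) * ℓ / m⌋₊ = k at k1 k2
  generalize ⌊δ * ℓ / m⌋₊ = l at l1 l2
  have k3 : (1 - 2 * δ) * ℓ ≤ k * m := by linarith
  have l3 : δ * ℓ / 2 ≤ l * m := by linarith
  have k0 : (0 : ℝ) ≤ k := Nat.cast_nonneg k
  have l00 : (0 : ℝ) ≤ l := Nat.cast_nonneg l
  have k4 : 1 ≤ k := Nat.pos_of_ne_zero fun h => by
    rw [h, Nat.cast_zero, zero_mul] at k3
    nlinarith
  have l4 : 1 ≤ l := Nat.pos_of_ne_zero fun h => by
    rw [h, Nat.cast_zero, zero_mul] at l3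
    linarith
  have k5 : (k : ℝ) ≤ ℓ := by nlinarith
  have l5 : (l : ℝ) ≤ ℓ := by nlinarith
  have hN : y ^ (l + k) ≤ x := by
    have a1 : ((y ^ (l + k) : ℕ) : ℝ) ≤ Real.exp ℓ := by
      rw [← Real.log_le_iff_le_exp (by positivity), hlogpow]
      push_cast
      linarith
    rw [hex] at a1
    exact_mod_cast a1
  set r := ⌈2 * Real.exp ((1 - δ) * m)⌉₊ with hr
  have r1 : 2 * Real.exp ((1 - δ) * m) ≤ r := Nat.le_ceil _
  have r2 : 3 * r ≤ Nat.primeCounting y := by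
    have a1 : (r : ℝ) < 2 * Real.exp ((1 - δ) * m) + 1 := Nat.ceil_lt_add_one (by positivity)
    have a2 : 1 ≤ Real.exp ((1 - δ) * m) := Real.one_le_exp (mul_nonneg (by linarith) (by linarith))
    have a3 : (3 * r : ℝ) ≤ Nat.primeCounting y := by linarith
    exact_mod_cast a3
  have t0 : 0 ≤ (1 / 5 + 9 * δ) * m := by positivity
  have t1 : 1 ≤ Real.exp ((1 / 5 + 9 * δ) * m) := Real.one_le_exp t0
  have t2 : ∀ i : ℕ, (i : ℝ) ≤ ℓ → 2 * i * Real.exp ((1 / 5 + 9 * δ) * m) ≤ r := by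
    intro i hi
    refine le_trans ?_ r1
    rw [mul_assoc]
    refine mul_le_mul_of_nonneg_left ?_ (by norm_num)
    refine (mul_le_mul_of_nonneg_right hi (Real.exp_pos _).le).trans ?_
    rw [← heℓ, ← Real.exp_add, Real.exp_le_exp]
    have : (1 - δ) * m = (1 / v + δ) * m + (1 / 5 + 9 * δ) * m := by
      rw [← add_mul]; congr 1; linarith
    linarith
  obtain ⟨kr, ck⟩ := choose_ge r k _ k4 t1 (t2 k k5)
  obtain ⟨lr, cl⟩ := choose_ge r l _ l4 t1 (t2 l l5)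
  rw [← Real.exp_nat_mul] at ck cl
  have ck' : Real.exp ((1 / 5 + 7 * δ) * ℓ) ≤ r.choose k := by
    refine le_trans (Real.exp_le_exp.2 ?_) ck
    have a1 : (1 / 5 + 9 * δ) * ((1 - 2 * δ) * ℓ) ≤ (1 / 5 + 9 * δ) * (k * m) :=
      mul_le_mul_of_nonneg_left k3 (by positivity)
    have a2 : 0 ≤ (δ * ℓ) * (8 / 5 - 18 * δ) := mul_nonneg δℓ.le (by linarith)
    nlinarith
  have cl' : Real.exp (δ / 10 * ℓ) ≤ r.choose l := by
    refine le_trans (Real.exp_le_exp.2 ?_) cl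
    have a1 : 0 ≤ δ * (l * m) := by positivity
    nlinarith
  have hP : (Nat.primesLE y).card = Nat.primeCounting y := Nat.primesLE_card_eq_primeCounting y
  obtain ⟨Q1, q1, c1⟩ := Finset.exists_subset_card_eq (s := Nat.primesLE y) (n := r) (by omega)
  obtain ⟨Q2, q2, c2⟩ := Finset.exists_subset_card_eq (s := Nat.primesLE y \ Q1) (n := r) (by
    rw [Finset.card_sdiff_of_subset q1]; omega)
  obtain ⟨Q3, q3, c3⟩ := Finset.exists_subset_card_eq (s := (Nat.primesLE y \ Q1) \ Q2) (n := r) (by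
    rw [Finset.card_sdiff_of_subset q2, Finset.card_sdiff_of_subset q1]; omega)
  have hpr : ∀ p ∈ Nat.primesLE y, p.Prime ∧ p ≤ y := fun p hp => (Nat.mem_primesLE.1 hp).symm
  set G := (Nat.primesLE x).filter
    (fun p => ¬ ∀ q : ℕ, q.Prime → q ≤ y → q ^ (p - 1) ≡ 1 [MOD p ^ 2]) with hG
  have g1 : ∀ p ∈ G, p.Prime ∧ p ≤ x := fun p hp =>
    (Nat.mem_primesLE.1 (Finset.mem_filter.1 hp).1).symm
  have g2 : G ⊆ (Finset.range (x + 1)).filter (Good u) ∪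
      Finset.Icc 1 ⌊Real.exp (δ / 20 * ℓ)⌋₊ := by
    intro p hp
    obtain ⟨pp, px⟩ := g1 p hp
    by_cases hs : p ≤ ⌊Real.exp (δ / 20 * ℓ)⌋₊
    · exact Finset.mem_union_right _ (Finset.mem_Icc.2 ⟨pp.pos, hs⟩)
    · refine Finset.mem_union_left _ (Finset.mem_filter.2 ⟨Finset.mem_range.2 (by omega), pp, ?_⟩)
      have a1 : Real.exp (δ / 20 * ℓ) < p := (Nat.floor_lt (Real.exp_pos _).le).1 (not_le.1 hs)
      have a2 := (Finset.mem_filter.1 hp).2
      push Not at a2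
      obtain ⟨q, qp, qy, hq⟩ := a2
      have p0 : (0 : ℝ) < p := by exact_mod_cast pp.pos
      have a3 : δ / 20 * ℓ ≤ Real.log p := by
        rw [Real.le_log_iff_exp_le p0]; exact a1.le
      have a4 : (q : ℝ) ≤ y := by exact_mod_cast qy
      have a5 : 0 < δ / 20 * ℓ := by positivity
      refine ⟨q, qp.two_le, ?_, fun hd => ?_, hq⟩
      · refine a4.trans (y1.trans (le_trans ?_ (Real.rpow_le_rpow a5.le a3 hu.le)))
        rw [Real.rpow_def_of_pos a5, Real.exp_le_exp, Real.log_mul (by positivity) l0.ne', hΛ]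
        linarith
      · have a6 : (p : ℝ) ≤ q := by exact_mod_cast Nat.le_of_dvd qp.pos hd
        have a7 : Real.exp (v * Λ) ≤ Real.exp (δ / 20 * ℓ) := Real.exp_le_exp.2 H2
        linarith
  have g3 : (G.card : ℝ) ≤ 2 * Real.exp (δ / 20 * ℓ) := by
    have a1 := (Finset.card_le_card g2).trans (Finset.card_union_le _ _)
    rw [Nat.card_Icc, Nat.add_sub_cancel] at a1
    have a2 : (G.card : ℝ) ≤ (((Finset.range (x + 1)).filter (Good u)).card : ℝ) +
        (⌊Real.exp (δ / 20 * ℓ)⌋₊ : ℝ) := by exact_mod_cast a1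
    have a3 : (⌊Real.exp (δ / 20 * ℓ)⌋₊ : ℝ) ≤ Real.exp (δ / 20 * ℓ) :=
      Nat.floor_le (Real.exp_pos _).le
    linarith
  have g4 : ∑ p ∈ G, Real.log p ≤ G.card * ℓ := by
    rw [← nsmul_eq_mul]
    refine Finset.sum_le_card_nsmul _ _ _ fun p hp => ?_
    rw [← hℓ]
    exact Real.log_le_log (by exact_mod_cast (g1 p hp).1.pos) (by exact_mod_cast (g1 p hp).2)
  have hc := core y k l r Q1 Q2 Q3 (fun p hp => hpr p (q1 hp))
    (fun p hp => hpr p (Finset.mem_sdiff.1 (q2 hp)).1)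
    (fun p hp => hpr p (Finset.mem_sdiff.1 (Finset.mem_sdiff.1 (q3 hp)).1).1)
    (Finset.disjoint_right.2 fun p hp => (Finset.mem_sdiff.1 (q2 hp)).2)
    (Finset.disjoint_right.2 fun p hp => (Finset.mem_sdiff.1 (Finset.mem_sdiff.1 (q3 hp)).1).2)
    (Finset.disjoint_right.2 fun p hp => (Finset.mem_sdiff.1 (q3 hp)).2)
    c1 c2 c3 k4 kr lr G (fun p hp => (g1 p hp).1)
    (fun p pp px hp => by
      by_contra hn
      exact hp (Finset.mem_filter.2 ⟨Nat.mem_primesLE.2 ⟨px.trans hN, pp⟩, hn⟩))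
    ⌊Real.exp (δ * ℓ)⌋₊ ⌊Real.exp (4 * δ * ℓ)⌋₊ ⌊Real.exp (ℓ / 5)⌋₊
    (Nat.le_floor (by simpa using δℓ.le))
    (fun n n0 nN => Nat.le_floor (H7 n n0 (nN.trans hN)))
    (fun i hi => Nat.le_floor (by
      have a1 : (i : ℝ) ^ 5 ≤ x := by exact_mod_cast hi.trans hN
      refine le_of_pow_le_pow_left₀ (n := 5) (by norm_num) (Real.exp_pos _).le ?_
      rw [← Real.exp_nat_mul]
      refine a1.trans (le_of_eq ?_)
      rw [← hex]; congr 1; push_cast; ring))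
    (2 * δ * ℓ) (by linarith)
    (by
      rw [hlogpow]
      have a0 : (0 : ℝ) < r.choose l := (Real.exp_pos _).trans_le cl'
      have a1 : (∑ p ∈ G, Real.log p) / (r.choose l) ≤ δ * ℓ := by
        rw [div_le_iff₀ a0]
        have a2 : Real.exp (δ / 10 * ℓ) = Real.exp (δ / 20 * ℓ) * Real.exp (δ / 20 * ℓ) := by
          rw [← Real.exp_add]; congr 1; ring
        have a3 : 2 ≤ δ * Real.exp (δ / 20 * ℓ) := by
          rw [div_le_iff₀ hδ] at H4; linarith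
        have a4 := Real.exp_pos (δ / 20 * ℓ)
        calc ∑ p ∈ G, Real.log p ≤ 2 * Real.exp (δ / 20 * ℓ) * ℓ :=
              g4.trans (mul_le_mul_of_nonneg_right g3 l0.le)
          _ ≤ δ * Real.exp (δ / 20 * ℓ) * Real.exp (δ / 20 * ℓ) * ℓ := by gcongr
          _ = δ * ℓ * Real.exp (δ / 10 * ℓ) := by rw [a2]; ring
          _ ≤ δ * ℓ * r.choose l := by gcongr
      linarith)
    (fun g hg => Nat.le_floor (by
      rcases Nat.eq_zero_or_pos g with rfl | g0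
      · simpa using (Real.exp_pos _).le
      · rw [← Real.log_le_iff_le_exp (by exact_mod_cast g0)]
        linarith))
  have hc' : (r.choose k : ℝ) ≤ 144 * (⌊Real.exp (4 * δ * ℓ)⌋₊ : ℝ) * (⌊Real.exp (ℓ / 5)⌋₊ : ℝ) *
      (⌊Real.exp (δ * ℓ)⌋₊ : ℝ) ^ 2 := by exact_mod_cast hc
  have f1 : (⌊Real.exp (4 * δ * ℓ)⌋₊ : ℝ) ≤ Real.exp (4 * δ * ℓ) := Nat.floor_le (by positivity)
  have f2 : (⌊Real.exp (ℓ / 5)⌋₊ : ℝ) ≤ Real.exp (ℓ / 5) := Nat.floor_le (by positivity)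
  have f3 : (⌊Real.exp (δ * ℓ)⌋₊ : ℝ) ≤ Real.exp (δ * ℓ) := Nat.floor_le (by positivity)
  have f4 : Real.exp ((1 / 5 + 7 * δ) * ℓ) ≤
      144 * Real.exp (4 * δ * ℓ) * Real.exp (ℓ / 5) * Real.exp (δ * ℓ) ^ 2 :=
    ck'.trans (hc'.trans (by gcongr))
  have f5 : Real.exp ((1 / 5 + 7 * δ) * ℓ) = Real.exp (δ * ℓ) *
      (Real.exp (4 * δ * ℓ) * Real.exp (ℓ / 5) * Real.exp (δ * ℓ) ^ 2) := by
    rw [← Real.exp_nat_mul, ← Real.exp_add, ← Real.exp_add, ← Real.exp_add]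
    congr 1; push_cast; ring
  have f6 : 0 < Real.exp (4 * δ * ℓ) * Real.exp (ℓ / 5) * Real.exp (δ * ℓ) ^ 2 := by positivity
  nlinarith

end Pool.Agent.P.MP_657a03_nt.LB
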