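import Pool.Agent.P.MP_657a03_nt.LB.D

set_option autoImplicit false

open Finset Filter

namespace Pool.Agent.P.MP_657a03_nt.LB

open Classical in
theorem count_good (u : ℝ) (hu : 5 / 4 < u) : ∃ c : ℝ, 0 < c ∧ ∃ x₀ : ℕ, ∀ x : ℕ, x₀ ≤ x →
    (x : ℝ) ^ c ≤ (((Finset.range (x + 1)).filter (Good u)).card : ℝ) := by
  obtain ⟨v, hv1, hv2⟩ := exists_between hu
  have v0 : 0 < v := by linarith
  have v1 : 1 / v < 4 / 5 := by rw [div_lt_iff₀ v0]; linarith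
  obtain ⟨δ, hδ, hθ⟩ : ∃ δ : ℝ, 0 < δ ∧ 1 - 1 / v = 1 / 5 + 11 * δ :=
    ⟨(4 / 5 - 1 / v) / 11, by linarith, by ring⟩
  refine ⟨δ / 20, by positivity, ?_⟩
  rw [← eventually_atTop]
  obtain ⟨B, hB⟩ := exists_nat_ge (2 / δ)
  have hB0 : (0 : ℝ) < B := lt_of_lt_of_le (by positivity) hB
  have hB1 : 1 ≤ B := by exact_mod_cast hB0
  obtain ⟨C, hC⟩ := card_divisors_pow_le B hB1
  have T1 : Tendsto (fun x : ℕ => Real.log x) atTop atTop :=
    Real.tendsto_log_atTop.comp tendsto_natCast_atTop_atTop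
  have T2 : Tendsto (fun x : ℕ => Real.log (Real.log x)) atTop atTop :=
    Real.tendsto_log_atTop.comp T1
  have T3 : ∀ s : ℝ, 0 < s → Tendsto (fun x : ℕ => Real.exp (s * Real.log x)) atTop atTop :=
    fun s hs => Real.tendsto_exp_atTop.comp (T1.const_mul_atTop hs)
  have T4 : Tendsto (fun x : ℕ => ⌊Real.exp (v * Real.log (Real.log x))⌋₊) atTop atTop :=
    tendsto_nat_floor_atTop.comp (Real.tendsto_exp_atTop.comp (T2.const_mul_atTop v0))
  filter_upwards [eventually_gt_atTop 1, eventually_ge_atTop C, T2.eventually_ge_atTop (2 / δ),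
    T1.eventually (log_ev (δ / 20 / v) 1 (by positivity) one_pos),
    T2.eventually_ge_atTop (-(u * Real.log (δ / 20)) / (u - v)),
    (T3 (δ / 20) (by positivity)).eventually_ge_atTop (2 / δ),
    (T3 δ hδ).eventually_gt_atTop 144, T4.eventually (pi_ev δ hδ)] with x a1 a2 a3 a4 a5 a6 a7 a8
  have x1 : (1 : ℝ) < x := by exact_mod_cast a1
  have x0 : (0 : ℝ) < x := by linarith
  have l0 : 0 < Real.log x := Real.log_pos x1
  rw [Real.rpow_def_of_pos x0, mul_comm]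
  refine finite_step u v δ x (by linarith) (by linarith) hδ hθ a1 a3 ?_ ?_ a6 a7 a8 ?_
  · rw [Real.rpow_one] at a4
    have := mul_le_mul_of_nonneg_left a4 v0.le
    refine this.trans (le_of_eq ?_)
    field_simp
  · rw [div_le_iff₀ (by linarith)] at a5
    linarith
  · intro n n0 nx
    have b1 : n.divisors.card ^ B ≤ x ^ 2 := by
      rw [sq]; exact (hC n n0).trans (Nat.mul_le_mul a2 nx)
    have b2 : (n.divisors.card : ℝ) ^ B ≤ (x : ℝ) ^ 2 := by exact_mod_cast b1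
    refine le_of_pow_le_pow_left₀ (n := B) (by omega) (Real.exp_pos _).le (b2.trans ?_)
    rw [← Real.exp_nat_mul]
    conv_lhs => rw [← Real.exp_log x0, ← Real.exp_nat_mul]
    rw [Real.exp_le_exp]
    rw [div_le_iff₀ hδ] at hB
    push_cast
    nlinarith

section
variable {p : ℕ} [hp : Fact p.Prime]

theorem one_le_mul_norm (n : ℕ) (hn : n ≠ 0) : 1 ≤ (n : ℝ) * ‖(n : ℚ_[p])‖ := by
  obtain ⟨e, m, hm, rfl⟩ := Nat.exists_eq_pow_mul_and_not_dvd hn p hp.out.one_lt.ne'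
  have h1 : ‖(m : ℚ_[p])‖ = 1 :=
    Padic.norm_natCast_eq_one_iff.2 ((Nat.Prime.coprime_iff_not_dvd hp.out).2 hm)
  have m1 : (1 : ℝ) ≤ m := by
    have : m ≠ 0 := fun h => hm (by simp [h])
    exact_mod_cast Nat.pos_of_ne_zero this
  have p0 : (0 : ℝ) < p := by exact_mod_cast hp.out.pos
  push_cast
  rw [norm_mul, h1, norm_pow, Padic.norm_p, mul_one, inv_pow]
  refine m1.trans (le_of_eq ?_)
  field_simp

theorem term_le {x : ℚ_[p]} {r : ℝ} (hx : ‖x‖ ≤ r) (k : ℕ) :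
    ‖(-1 : ℚ_[p]) ^ k * x ^ (k + 1) / ((k : ℚ_[p]) + 1)‖ ≤ ‖x‖ * ((k + 1) * r ^ k) := by
  have h := one_le_mul_norm (p := p) (k + 1) (by omega)
  push_cast at h
  have h0 : 0 < ‖(k : ℚ_[p]) + 1‖ := by
    refine lt_of_le_of_ne (norm_nonneg _) fun e => ?_
    rw [← e, mul_zero] at h
    linarith
  have h1 : ‖(k : ℚ_[p]) + 1‖⁻¹ ≤ k + 1 := by
    rw [inv_le_iff_one_le_mul₀ h0]
    exact h
  have hr : 0 ≤ r := (norm_nonneg x).trans hx
  rw [norm_div, norm_mul, norm_pow, norm_pow, norm_neg, norm_one, one_pow, div_eq_mul_inv,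
    pow_succ]
  calc 1 * (‖x‖ ^ k * ‖x‖) * ‖(k : ℚ_[p]) + 1‖⁻¹ ≤ 1 * (r ^ k * ‖x‖) * (k + 1) := by gcongr
    _ = _ := by ring

theorem small (k : ℕ) : ((k : ℝ) + 1 + 1) * (1 / 3) ^ (k + 1) ≤ 2 / 3 := by
  induction k with
  | zero => norm_num
  | succ k ih =>
    push_cast
    rw [pow_succ]
    have h : (0 : ℝ) ≤ (1 / 3) ^ (k + 1) := by positivity
    have hk : (0 : ℝ) ≤ k := by positivity
    nlinarith [mul_nonneg hk h]

theorem norm_log {x : ℚ_[p]} (hx : ‖x‖ ≤ 1 / 3) (h0 : 0 < ‖x‖) :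
    ‖∑' k : ℕ, (-1 : ℚ_[p]) ^ k * x ^ (k + 1) / ((k : ℚ_[p]) + 1)‖ = ‖x‖ := by
  have hs : Summable fun k : ℕ => (-1 : ℚ_[p]) ^ k * x ^ (k + 1) / ((k : ℚ_[p]) + 1) := by
    refine Summable.of_norm_bounded (g := fun k : ℕ => ‖x‖ * ((k + 1) * (1 / 3 : ℝ) ^ k)) ?_
      (term_le hx)
    refine Summable.mul_left _ ?_
    have h2 : Summable fun k : ℕ => (k : ℝ) ^ 1 * (1 / 3 : ℝ) ^ k :=
      summable_pow_mul_geometric_of_norm_lt_one 1 (by norm_num)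
    refine (h2.add (summable_geometric_of_lt_one (r := 1 / 3) (by norm_num)
      (by norm_num))).congr fun k => ?_
    ring
  rw [hs.tsum_eq_zero_add]
  apply Padic.norm_eq_of_norm_sub_lt_right
  simp only [pow_zero, zero_add, pow_one, Nat.cast_zero, one_mul, div_one, add_sub_cancel_left]
  refine lt_of_le_of_lt (IsUltrametricDist.norm_tsum_le_of_forall_le_of_nonneg
    (C := ‖x‖ * (2 / 3)) (by positivity) fun k => ?_) (by linarith)
  refine (term_le hx (k + 1)).trans (mul_le_mul_of_nonneg_left ?_ h0.le)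
  push_cast
  exact small k

theorem reg_unit (a : ℕ) (h3 : 3 ≤ p) (h1 : ¬ p ∣ a) (h2 : ¬ a ^ (p - 1) ≡ 1 [MOD p ^ 2]) :
    ‖(p : ℚ_[p])⁻¹ * ((((p - 1 : ℕ) : ℚ_[p]))⁻¹ * ∑' k : ℕ, (-1 : ℚ_[p]) ^ k *
      ((a : ℚ_[p]) ^ (p - 1) - 1) ^ (k + 1) / ((k : ℚ_[p]) + 1))‖ = 1 := by
  have p3 : (3 : ℝ) ≤ p := by exact_mod_cast h3
  have f1 : a ^ (p - 1) ≡ 1 [MOD p] := by
    have := Nat.ModEq.pow_totient ((Nat.Prime.coprime_iff_not_dvd hp.out).2 h1).symm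
    rwa [Nat.totient_prime hp.out] at this
  have e : (a : ℚ_[p]) ^ (p - 1) - 1 = (((a : ℤ) ^ (p - 1) - 1 : ℤ) : ℚ_[p]) := by push_cast; ring
  have d1 : (p : ℤ) ^ 1 ∣ (a : ℤ) ^ (p - 1) - 1 := by
    rw [pow_one]
    exact_mod_cast Nat.modEq_iff_dvd.1 f1.symm
  have d2 : ¬ (p : ℤ) ^ 2 ∣ (a : ℤ) ^ (p - 1) - 1 := fun h =>
    h2 (Nat.modEq_iff_dvd.2 (by exact_mod_cast h)).symm
  rw [← Padic.norm_int_le_pow_iff_dvd, ← e] at d1 d2
  rw [Padic.norm_le_pow_iff_norm_lt_pow_add_one, not_lt] at d2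
  have n1 : ‖(a : ℚ_[p]) ^ (p - 1) - 1‖ = (p : ℝ)⁻¹ := by
    refine le_antisymm (by simpa using d1) ?_
    refine le_trans (le_of_eq ?_) d2
    norm_num
  rw [norm_mul, norm_mul, norm_inv, norm_inv, Padic.norm_natCast_p_sub_one, Padic.norm_p,
    norm_log, n1]
  · field_simp
  · rw [n1, one_div]
    exact inv_anti₀ (by norm_num) p3
  · rw [n1]; positivity

end

end Pool.Agent.P.MP_657a03_nt.LB
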